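import Mathlib
import Pool.Agent.Lib.MP_fc0ae9_an.Subharm

/- No non-zero `u ∈ H^p(ℝ^d)` with `u^* ≥ 0` and `(R_j u)^* = 0` a.e. exists for `p ≥ d/(d+1)`. -/

namespace Pool.Agent.Results.MP_fc0ae9_an.PositiveThreshold

open MeasureTheory Filter Set
open scoped Topology ENNReal InnerProductSpace
open Pool.Agent.Lib.MP_fc0ae9_an

/-- The point `(t, x)` of `ℝ^{d+1}`; coordinate `0` is `t`. -/
noncomputable def pt {d : ℕ} (t : ℝ) (x : EuclideanSpace ℝ (Fin d)) :
    EuclideanSpace ℝ (Fin (d + 1)) :=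
  WithLp.toLp 2 (Fin.cons t x.ofLp)

/-- The open upper half-space `t > 0`. -/
def halfSpace (d : ℕ) : Set (EuclideanSpace ℝ (Fin (d + 1))) := {X | 0 < X 0}

/-- The non-tangential maximal function of aperture `α`. -/
noncomputable def ntMax {d : ℕ} (α : ℝ) (u : EuclideanSpace ℝ (Fin (d + 1)) → ℝ)
    (x : EuclideanSpace ℝ (Fin d)) : ℝ≥0∞ :=
  ⨆ (t : ℝ) (y : EuclideanSpace ℝ (Fin d)) (_ : 0 < t ∧ dist y x < α * t), ‖u (pt t y)‖ₑ

/-- `u ∈ H^p(ℝ^d)`: harmonic on the half-space with maximal function in `L^p`. -/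
def MemHp {d : ℕ} (α p : ℝ) (u : EuclideanSpace ℝ (Fin (d + 1)) → ℝ) : Prop :=
  InnerProductSpace.HarmonicOnNhd u (halfSpace d) ∧ ∫⁻ x, ntMax α u x ^ p < ∞

/-- The partial derivative in the `i`-th coordinate direction. -/
noncomputable def pd {d : ℕ} (i : Fin (d + 1)) (u : EuclideanSpace ℝ (Fin (d + 1)) → ℝ)
    (X : EuclideanSpace ℝ (Fin (d + 1))) : ℝ :=
  fderiv ℝ u X (EuclideanSpace.single i 1)

/-- `v j = R_j u`: the `v j` lie in `H^p` and `(u, v 1, …, v d)` satisfies the generalized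
Cauchy-Riemann equations of Stein and Weiss on the half-space. -/
def AreRieszTransforms {d : ℕ} (α p : ℝ) (u : EuclideanSpace ℝ (Fin (d + 1)) → ℝ)
    (v : Fin d → EuclideanSpace ℝ (Fin (d + 1)) → ℝ) : Prop :=
  (∀ j, MemHp α p (v j)) ∧ ∀ X ∈ halfSpace d,
    (∀ j, pd 0 (v j) X = pd j.succ u X) ∧ (∀ j k, pd j.succ (v k) X = pd k.succ (v j) X) ∧
      pd 0 u X + ∑ j, pd j.succ (v j) X = 0

variable {d : ℕ}

/-- `pt` as a continuous linear map. -/
noncomputable def ptL (d : ℕ) :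
    (ℝ × EuclideanSpace ℝ (Fin d)) →L[ℝ] EuclideanSpace ℝ (Fin (d + 1)) :=
  LinearMap.toContinuousLinearMap
    { toFun := fun q => pt q.1 q.2
      map_add' := fun q r => by
        ext i
        refine Fin.cases ?_ (fun j => ?_) i <;> simp [pt]
      map_smul' := fun c q => by
        ext i
        refine Fin.cases ?_ (fun j => ?_) i <;> simp [pt] }

lemma ptL_apply (t : ℝ) (x : EuclideanSpace ℝ (Fin d)) : ptL d (t, x) = pt t x := rfl

lemma ptL_zero (q : ℝ × EuclideanSpace ℝ (Fin d)) : ptL d q 0 = q.1 := rfl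

lemma ptL_e0 : ptL d (1, 0) = EuclideanSpace.single 0 1 := by
  ext i
  refine Fin.cases ?_ (fun j => ?_) i <;> simp [ptL_apply, pt]

lemma ptL_ej (j : Fin d) :
    ptL d (0, EuclideanSpace.single j 1) = EuclideanSpace.single j.succ 1 := by
  ext i
  refine Fin.cases ?_ (fun k => ?_) i
  · simp [ptL_apply, pt]
  · simp [ptL_apply, pt, Pi.single_apply]

lemma isOpen_half : IsOpen (halfSpace d) :=
  isOpen_lt continuous_const (by fun_prop)

lemma dd_comp {W : EuclideanSpace ℝ (Fin (d + 1)) → ℝ} {q : ℝ × EuclideanSpace ℝ (Fin d)}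
    (hW : DifferentiableAt ℝ W (ptL d q)) (v : ℝ × EuclideanSpace ℝ (Fin d)) :
    dd (fun r => W (ptL d r)) v q = dd W (ptL d v) (ptL d q) := by
  have h : fderiv ℝ (fun r => W (ptL d r)) q = _ :=
    (hW.hasFDerivAt.comp q (ptL d).hasFDerivAt).fderiv
  simp [dd, h]

lemma dd_dd_comp {W : EuclideanSpace ℝ (Fin (d + 1)) → ℝ} {q : ℝ × EuclideanSpace ℝ (Fin d)}
    (hW : ContDiffAt ℝ 2 W (ptL d q)) (v : ℝ × EuclideanSpace ℝ (Fin d)) :
    dd (dd (fun r => W (ptL d r)) v) v q = dd (dd W (ptL d v)) (ptL d v) (ptL d q) := by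
  have h1 : dd (fun r => W (ptL d r)) v =ᶠ[𝓝 q] fun r => dd W (ptL d v) (ptL d r) := by
    filter_upwards [(ptL d).continuous.continuousAt.eventually (hW.eventually (by simp))] with r hr
    exact dd_comp (hr.differentiableAt two_ne_zero) v
  rw [← dd_comp ((dd_contDiffAt (m := 1) hW (by norm_num) _).differentiableAt one_ne_zero) v]
  rw [dd, h1.fderiv_eq, dd]

lemma measurable_ntMax (α : ℝ) (u : EuclideanSpace ℝ (Fin (d + 1)) → ℝ) :
    Measurable (ntMax α u) := by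
  refine measurable_of_Ioi fun c => IsOpen.measurableSet ?_
  have : ntMax α u ⁻¹' Ioi c = ⋃ (t : ℝ) (y : EuclideanSpace ℝ (Fin d))
      (_ : 0 < t ∧ c < ‖u (pt t y)‖ₑ), Metric.ball y (α * t) := by
    ext x
    simp only [ntMax, mem_preimage, mem_Ioi, lt_iSup_iff, mem_iUnion, Metric.mem_ball]
    constructor
    · rintro ⟨t, y, ⟨h1, h2⟩, h3⟩
      exact ⟨t, y, ⟨h1, h3⟩, by rwa [dist_comm]⟩
    · rintro ⟨t, y, ⟨h1, h3⟩, h2⟩
      exact ⟨t, y, ⟨h1, by rwa [dist_comm]⟩, h3⟩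
  rw [this]
  exact isOpen_iUnion fun _ => isOpen_iUnion fun _ => isOpen_iUnion fun _ => Metric.isOpen_ball

lemma le_ntMax {α : ℝ} (hα : 0 < α) (u : EuclideanSpace ℝ (Fin (d + 1)) → ℝ) {t : ℝ} (ht : 0 < t)
    (x : EuclideanSpace ℝ (Fin d)) : ‖u (pt t x)‖ₑ ≤ ntMax α u x := by
  refine le_iSup_of_le t (le_iSup_of_le x (le_iSup_of_le ⟨ht, ?_⟩ le_rfl))
  rw [dist_self]; positivity

lemma dominated {α p : ℝ} (hα : 0 < α) (hp : 0 < p) {u : EuclideanSpace ℝ (Fin (d + 1)) → ℝ}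
    (hu : MemHp α p u) : ∃ g : EuclideanSpace ℝ (Fin d) → ℝ, Integrable g ∧
      ∀ᵐ x, ∀ t, 0 < t → |u (pt t x)| ^ p ≤ g x := by
  have hm : Measurable fun x => ntMax α u x ^ p := (measurable_ntMax α u).pow_const p
  refine ⟨fun x => (ntMax α u x ^ p).toReal,
    integrable_toReal_of_lintegral_ne_top hm.aemeasurable hu.2.ne, ?_⟩
  filter_upwards [ae_lt_top hm hu.2.ne] with x hx t ht
  have h := ENNReal.toReal_mono hx.ne (ENNReal.rpow_le_rpow (le_ntMax hα u ht x) hp.le)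
  rwa [← ENNReal.toReal_rpow, toReal_enorm, Real.norm_eq_abs] at h

/-- The vector field `(u, v 1, …, v d)`. -/
noncomputable def vec (F : Fin (d + 1) → EuclideanSpace ℝ (Fin (d + 1)) → ℝ)
    (X : EuclideanSpace ℝ (Fin (d + 1))) : EuclideanSpace ℝ (Fin (d + 1)) :=
  WithLp.toLp 2 fun i => F i X

lemma vec_fderiv {F : Fin (d + 1) → EuclideanSpace ℝ (Fin (d + 1)) → ℝ}
    {X : EuclideanSpace ℝ (Fin (d + 1))} (h : DifferentiableAt ℝ (vec F) X)
    (z : EuclideanSpace ℝ (Fin (d + 1))) (i : Fin (d + 1)) :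
    fderiv ℝ (vec F) X z i = fderiv ℝ (F i) X z := by
  have h1 : fderiv ℝ (F i) X = _ :=
    ((EuclideanSpace.proj (𝕜 := ℝ) i).hasFDerivAt.comp X h.hasFDerivAt).fderiv
  rw [h1]; rfl

lemma norm_rpow_le {p : ℝ} (hp : 0 < p) (w : EuclideanSpace ℝ (Fin (d + 1))) :
    ‖w‖ ^ p ≤ ((d : ℝ) + 1) ^ p * ∑ i, |w i| ^ p := by
  obtain ⟨k, -, hk⟩ := Finset.exists_max_image Finset.univ (fun i => |w i|) Finset.univ_nonempty
  have h1 : ‖w‖ ≤ ((d : ℝ) + 1) * |w k| := by
    rw [EuclideanSpace.norm_eq]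
    refine Real.sqrt_le_iff.2 ⟨by positivity, ?_⟩
    have h2 : ∑ i, ‖w i‖ ^ 2 ≤ ∑ _i : Fin (d + 1), |w k| ^ 2 :=
      Finset.sum_le_sum fun i _ =>
        pow_le_pow_left₀ (norm_nonneg _) (hk i (Finset.mem_univ i)) 2
    simp only [Finset.sum_const, Finset.card_univ, Fintype.card_fin, nsmul_eq_mul] at h2
    push_cast at h2
    have h3 : (0 : ℝ) ≤ d := Nat.cast_nonneg d
    nlinarith [mul_nonneg (mul_nonneg h3 (add_nonneg h3 zero_le_one)) (sq_nonneg |w k|)]
  calc ‖w‖ ^ p ≤ (((d : ℝ) + 1) * |w k|) ^ p := Real.rpow_le_rpow (norm_nonneg _) h1 hp.le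
    _ = ((d : ℝ) + 1) ^ p * |w k| ^ p := Real.mul_rpow (by positivity) (abs_nonneg _)
    _ ≤ _ := mul_le_mul_of_nonneg_left
        (Finset.single_le_sum (f := fun i => |w i| ^ p)
          (fun i _ => Real.rpow_nonneg (abs_nonneg _) _) (Finset.mem_univ k)) (by positivity)

lemma chi_Phi_le {E : Type*} [NormedAddCommGroup E] [InnerProductSpace ℝ E] {D : ℝ} {e : E}
    (hD : 1 ≤ D) (he : ‖e‖ = 1) {p δ : ℝ} (hp : D / (D + 1) ≤ p) (hδ : 0 < δ) :
    ∃ K, 0 ≤ K ∧ ∀ w, chi δ (Phi D e w) ≤ K * ‖w‖ ^ p := by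
  set a := D / (D + 1) with ha
  have ha0 : 0 < a := div_pos (by linarith) (by linarith)
  set C := Real.sqrt (2 * (D + 1)) with hC
  have hC0 : 0 ≤ C := Real.sqrt_nonneg _
  refine ⟨δ * (C / δ) ^ (p / a), by positivity, fun w => ?_⟩
  rcases le_or_gt (Phi D e w) δ with h | h
  · rw [chi_zero h]; positivity
  · have h1 : 1 ≤ Phi D e w / δ := (one_le_div hδ).2 h.le
    have h2 : Phi D e w / δ ≤ (Phi D e w / δ) ^ (p / a) :=
      Real.self_le_rpow_of_one_le h1 ((one_le_div ha0).2 hp)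
    have h3 : Phi D e w / δ ≤ C / δ * ‖w‖ ^ a := by
      rw [div_mul_eq_mul_div]
      exact div_le_div_of_nonneg_right (Phi_le hD he) hδ.le
    have h4 : (Phi D e w / δ) ^ (p / a) ≤ (C / δ * ‖w‖ ^ a) ^ (p / a) :=
      Real.rpow_le_rpow (by linarith) h3 (div_nonneg (by linarith) ha0.le)
    rw [Real.mul_rpow (by positivity) (by positivity), ← Real.rpow_mul (norm_nonneg _),
      mul_div_cancel₀ _ ha0.ne'] at h4
    have h5 := chi_le hδ.le h
    have h6 : Phi D e w ≤ δ * ((C / δ) ^ (p / a) * ‖w‖ ^ p) := by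
      rw [← div_le_iff₀' hδ]; exact h2.trans h4
    rw [mul_assoc]
    exact h5.trans h6

theorem main (hd : 1 ≤ d) {α p : ℝ} (hα : 0 < α) (hp : (d : ℝ) / (d + 1) ≤ p)
    (F : Fin (d + 1) → EuclideanSpace ℝ (Fin (d + 1)) → ℝ) (hF : ∀ i, MemHp α p (F i))
    (hsym : ∀ X ∈ halfSpace d, ∀ i j, pd i (F j) X = pd j (F i) X)
    (hdiv : ∀ X ∈ halfSpace d, ∑ i, pd i (F i) X = 0)
    (hpos : ∀ᵐ x, ∃ c : ℝ, 0 ≤ c ∧ Tendsto (fun t => F 0 (pt t x)) (𝓝[>] 0) (𝓝 c))
    (hzero : ∀ j : Fin d, ∀ᵐ x, Tendsto (fun t => F j.succ (pt t x)) (𝓝[>] 0) (𝓝 0)) :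
    ∀ X ∈ halfSpace d, F 0 X = 0 := by
  have hD : (1 : ℝ) ≤ d := by exact_mod_cast hd
  have hp0 : 0 < p := lt_of_lt_of_le (div_pos (by linarith) (by linarith)) hp
  set e : EuclideanSpace ℝ (Fin (d + 1)) := EuclideanSpace.single 0 1 with hedef
  have he : ‖e‖ = 1 := by simp [hedef]
  have hei : ∀ w : EuclideanSpace ℝ (Fin (d + 1)), ⟪e, w⟫_ℝ = w 0 := fun w => by
    simp [hedef, EuclideanSpace.inner_single_left]
  set b := EuclideanSpace.basisFun (Fin (d + 1)) ℝ with hbdef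
  have hb : ∀ i, b i = EuclideanSpace.single i 1 := fun i => EuclideanSpace.basisFun_apply _ _ i
  have hbi : ∀ i (w : EuclideanSpace ℝ (Fin (d + 1))), ⟪b i, w⟫_ℝ = w i := fun i w => by
    simp [hb, EuclideanSpace.inner_single_left]
  have hFi : ∀ X ∈ halfSpace d, ∀ i, ContDiffAt ℝ 2 (F i) X := fun X hX i => ((hF i).1 X hX).1
  have hvec : ∀ X ∈ halfSpace d, ContDiffAt ℝ 2 (vec F) X := fun X hX =>
    contDiffAt_euclidean.2 fun i => hFi X hX i
  have hentry : ∀ X ∈ halfSpace d, ∀ i j, ⟪b i, fderiv ℝ (vec F) X (b j)⟫_ℝ = pd j (F i) X := by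
    intro X hX i j
    rw [hbi, vec_fderiv ((hvec X hX).differentiableAt two_ne_zero), hb, pd]
  have hsub : ∀ δ, 0 < δ → ∀ X ∈ halfSpace d,
      ContDiffAt ℝ 2 (fun Y => chi δ (Phi d e (vec F Y))) X ∧
      0 ≤ ∑ i, dd (dd (fun Y => chi δ (Phi d e (vec F Y))) (b i)) (b i) X := by
    intro δ hδ X hX
    refine subharm b (by simp) hD he hδ (hvec X hX) ?_ ?_ ?_
    · have hexp : ∀ x y, ⟪x, fderiv ℝ (vec F) X y⟫_ℝ
          = ∑ i, ∑ j, x i * y j * pd j (F i) X := by
        intro x y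
        conv_lhs => rw [← b.sum_repr x, ← b.sum_repr y]
        rw [sum_inner]
        refine Finset.sum_congr rfl fun i _ => ?_
        rw [map_sum, inner_sum]
        refine Finset.sum_congr rfl fun j _ => ?_
        rw [map_smul, real_inner_smul_left, real_inner_smul_right, hentry X hX, mul_assoc]
        rfl
      intro x y
      rw [real_inner_comm, hexp, hexp, Finset.sum_comm]
      refine Finset.sum_congr rfl fun i _ => Finset.sum_congr rfl fun j _ => ?_
      rw [hsym X hX i j]; ring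
    · rw [← hdiv X hX]
      exact Finset.sum_congr rfl fun i _ => hentry X hX i i
    · ext k
      have hlap := ((hF k).1 X hX).2.eq_of_nhds
      rw [InnerProductSpace.laplacian_eq_iteratedFDeriv_orthonormalBasis _ b] at hlap
      simp only [Pi.zero_apply] at hlap
      rw [WithLp.ofLp_sum, Finset.sum_apply, WithLp.ofLp_zero, Pi.zero_apply, ← hlap]
      refine Finset.sum_congr rfl fun i _ => ?_
      have h1 : (fun Y => fderiv ℝ (vec F) Y (b i))
          =ᶠ[𝓝 X] vec fun k Y => fderiv ℝ (F k) Y (b i) := by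
        filter_upwards [isOpen_half.mem_nhds hX] with Y hY
        ext k
        exact vec_fderiv ((hvec Y hY).differentiableAt two_ne_zero) _ k
      have h2 : ∀ k, DifferentiableAt ℝ (fderiv ℝ (F k)) X := fun k =>
        ((hFi X hX k).fderiv_right (m := 1) (by norm_num)).differentiableAt one_ne_zero
      have h3 : DifferentiableAt ℝ (vec fun k Y => fderiv ℝ (F k) Y (b i)) X :=
        differentiableAt_euclidean.2 fun k => (h2 k).clm_apply (differentiableAt_const _)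
      rw [h1.fderiv_eq, vec_fderiv h3, iteratedFDeriv_two_apply,
        fderiv_clm_apply (h2 k) (differentiableAt_const _)]
      simp
  choose g hg hgle using fun i => dominated hα hp0 (hF i)
  have hW : ∀ δ, 0 < δ → ∀ q : ℝ × EuclideanSpace ℝ (Fin d), 0 < q.1 →
      chi δ (Phi d e (vec F (ptL d q))) = 0 := by
    intro δ hδ
    obtain ⟨K, hK0, hK⟩ := chi_Phi_le hD he hp hδ
    refine slice_zero (fun j => EuclideanSpace.single j 1)
      (fun q => chi δ (Phi d e (vec F (ptL d q)))) ?_ (fun q _ => chi_nonneg _ _) ?_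
      (fun x => K * (((d : ℝ) + 1) ^ p * ∑ i, g i x))
      (((integrable_finsetSum _ fun i _ => hg i).const_mul _).const_mul _) ?_ ?_
    · intro q hq
      exact (hsub δ hδ (ptL d q) hq).1.comp q (ptL d).contDiff.contDiffAt
    · intro q hq
      obtain ⟨h1, h2⟩ := hsub δ hδ (ptL d q) hq
      rw [Fin.sum_univ_succ] at h2
      rw [dd_dd_comp h1, ptL_e0]
      simp_rw [dd_dd_comp h1, ptL_ej]
      simpa only [hb] using h2
    · filter_upwards [ae_all_iff.2 hgle] with x hx t ht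
      refine (hK _).trans (mul_le_mul_of_nonneg_left ((norm_rpow_le hp0 _).trans ?_) hK0)
      exact mul_le_mul_of_nonneg_left (Finset.sum_le_sum fun i _ => hx i t ht) (by positivity)
    · filter_upwards [hpos, ae_all_iff.2 hzero] with x ⟨c, hc, hx0⟩ hx
      have h1 : Tendsto (fun t => vec F (pt t x)) (𝓝[>] 0) (𝓝 (c • e)) := by
        have h2 : Tendsto (fun t => fun i => F i (pt t x)) (𝓝[>] 0) (𝓝 (c • e).ofLp) := by
          rw [tendsto_pi_nhds]
          intro i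
          refine Fin.cases ?_ (fun j => ?_) i
          · simpa [hedef] using hx0
          · simpa [hedef] using hx j
        exact ((PiLp.continuous_toLp 2 _).tendsto _).comp h2
      have h3 : chi δ (Phi d e (c • e)) = 0 := by
        rw [Phi_eq_zero hD he, chi_zero hδ.le]
        rw [real_inner_smul_right, real_inner_self_eq_norm_sq, norm_smul, he,
          Real.norm_of_nonneg hc]
        simp
      have h4 := (((contDiff_chi δ).continuous.comp (continuous_Phi (e := e) hD)).tendsto _).comp h1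
      rw [Function.comp_apply, h3] at h4
      exact h4
  have hsurj : ∀ X : EuclideanSpace ℝ (Fin (d + 1)),
      ptL d (X 0, WithLp.toLp 2 fun j => X j.succ) = X := by
    intro X
    ext i
    refine Fin.cases ?_ (fun j => ?_) i <;> simp [ptL_apply, pt]
  have hray : ∀ X ∈ halfSpace d, ∀ j : Fin d, F j.succ X = 0 := by
    intro X hX j
    have h1 : ¬ ⟪e, vec F X⟫_ℝ < ‖vec F X‖ := by
      intro h
      have h2 := Phi_pos hD he h
      have h3 := hW _ (half_pos h2) (X 0, WithLp.toLp 2 fun j => X j.succ) hX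
      rw [hsurj] at h3
      exact (chi_pos (half_lt_self h2)).ne' h3
    rw [not_lt, hei] at h1
    have h2 := pow_le_pow_left₀ (norm_nonneg _) h1 2
    rw [EuclideanSpace.real_norm_sq_eq, Fin.sum_univ_succ] at h2
    have h3 : (vec F X j.succ) ^ 2 ≤ ∑ k : Fin d, (vec F X k.succ) ^ 2 :=
      Finset.single_le_sum (f := fun k : Fin d => (vec F X k.succ) ^ 2)
        (fun k _ => sq_nonneg _) (Finset.mem_univ j)
    have h4 : (vec F X j.succ) ^ 2 = 0 := le_antisymm (by linarith) (sq_nonneg _)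
    exact (pow_eq_zero_iff two_ne_zero).1 h4
  have hpd0 : ∀ X ∈ halfSpace d, ∀ (j : Fin d) i, pd i (F j.succ) X = 0 := by
    intro X hX j i
    have h1 : F j.succ =ᶠ[𝓝 X] fun _ => 0 := by
      filter_upwards [isOpen_half.mem_nhds hX] with Y hY using hray Y hY j
    rw [pd, h1.fderiv_eq]; simp
  have hfd : ∀ X ∈ halfSpace d, fderiv ℝ (F 0) X = 0 := by
    intro X hX
    refine ContinuousLinearMap.coe_injective (b.toBasis.ext fun i => ?_)
    simp only [OrthonormalBasis.coe_toBasis, ContinuousLinearMap.coe_coe, hb]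
    show pd i (F 0) X = 0
    refine Fin.cases ?_ (fun j => ?_) i
    · have := hdiv X hX
      rw [Fin.sum_univ_succ, Finset.sum_eq_zero fun j _ => hpd0 X hX j _, add_zero] at this
      exact this
    · rw [hsym X hX]; exact hpd0 X hX j 0
  have hconv : Convex ℝ (halfSpace d) :=
    convex_halfSpace_gt (EuclideanSpace.proj (𝕜 := ℝ) (0 : Fin (d + 1))).isLinear 0
  intro X hX
  have hconst : ∀ Y ∈ halfSpace d, F 0 Y = F 0 X := fun Y hY =>
    isOpen_half.is_const_of_fderiv_eq_zero (𝕜 := ℝ) hconv.isPreconnected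
      (fun Z hZ => ((hFi Z hZ 0).differentiableAt two_ne_zero).differentiableWithinAt)
      (fun Z hZ => hfd Z hZ) hY hX
  have hint : Integrable (fun _ : EuclideanSpace ℝ (Fin d) => |F 0 X| ^ p) := by
    refine (hg 0).mono' aestronglyMeasurable_const ?_
    filter_upwards [hgle 0] with x hx
    have := hx 1 one_pos
    rw [hconst (pt 1 x) (show (0 : ℝ) < 1 from one_pos)] at this
    rwa [Real.norm_of_nonneg (Real.rpow_nonneg (abs_nonneg _) _)]
  have : Nonempty (Fin d) := ⟨⟨0, hd⟩⟩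
  rcases integrable_const_iff.1 hint with h | h
  · exact abs_eq_zero.1 ((Real.rpow_eq_zero (abs_nonneg _) hp0.ne').1 h)
  · have h2 := h.measure_univ_lt_top
    rw [measure_univ_of_isAddLeftInvariant] at h2
    exact absurd h2 (lt_irrefl _)

theorem result (d : ℕ) (hd : 1 ≤ d) (α : ℝ) (hα : 0 < α) (p : ℝ) (hp : (d : ℝ) / (d + 1) ≤ p)
    (u : EuclideanSpace ℝ (Fin (d + 1)) → ℝ) (v : Fin d → EuclideanSpace ℝ (Fin (d + 1)) → ℝ)
    (hu : MemHp α p u) (hv : AreRieszTransforms α p u v)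
    (hpos : ∀ᵐ x, ∃ c : ℝ, 0 ≤ c ∧ Tendsto (fun t => u (pt t x)) (𝓝[>] 0) (𝓝 c))
    (hzero : ∀ j, ∀ᵐ x, Tendsto (fun t => v j (pt t x)) (𝓝[>] 0) (𝓝 0)) :
    ∀ X ∈ halfSpace d, u X = 0 := by
  refine main hd hα hp (Fin.cons u v) (fun i => Fin.cases hu hv.1 i) ?_ ?_ hpos hzero
  · intro X hX i j
    obtain ⟨h1, h2, -⟩ := hv.2 X hX
    refine Fin.cases ?_ (fun i => ?_) i <;> refine Fin.cases ?_ (fun j => ?_) j
    · rfl
    · exact h1 j
    · exact (h1 i).symm
    · exact h2 i j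
  · intro X hX
    rw [Fin.sum_univ_succ]
    exact (hv.2 X hX).2.2

end Pool.Agent.Results.MP_fc0ae9_an.PositiveThreshold
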