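import Pool.Agent.Lib.MP_fc0ae9_an.StR

/- The boundary value map `T` on `H^p(ℝ^d)` is injective slightly below the exponent `(d-1)/d`. -/

namespace Pool.Agent.Results.MP_fc0ae9_an.Injective

open MeasureTheory Filter
open scoped Topology
open Pool.Agent.Results.MP_fc0ae9_an.PositiveThreshold Pool.Agent.Lib.MP_fc0ae9_an.St

theorem result (d : ℕ) (hd : 2 ≤ d) : ∃ p₁ : ℝ, 0 < p₁ ∧ p₁ < ((d : ℝ) - 1) / d ∧
    ∀ α : ℝ, 0 < α → ∀ p : ℝ, p₁ ≤ p → p ≤ 1 →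
      ∀ (u : EuclideanSpace ℝ (Fin (d + 1)) → ℝ)
        (v : Fin d → EuclideanSpace ℝ (Fin (d + 1)) → ℝ),
        MemHp α p u → AreRieszTransforms α p u v →
        (∀ᵐ x, Tendsto (fun t => u (pt t x)) (𝓝[>] 0) (𝓝 0)) →
        (∀ j, ∀ᵐ x, Tendsto (fun t => v j (pt t x)) (𝓝[>] 0) (𝓝 0)) →
        ∀ X ∈ halfSpace d, u X = 0 := by
  obtain ⟨p₁, h0, h1, h⟩ := apriori_sys hd
  refine ⟨p₁, h0, h1, fun α hα p hp hp1 u v hu hv hu0 hv0 X hX => ?_⟩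
  obtain ⟨C, -, h⟩ := h p hp hp1
  have hp0 : 0 < p := h0.trans_le hp
  have hX0 : 0 < X 0 := hX
  have h2 := h α hα _ (fun _ => 0) (sys_of_riesz hu hv hu0 hv0) X hX
  simp only [abs_zero, Real.zero_rpow hp0.ne', integral_zero, mul_zero, Fin.cons_zero] at h2
  by_contra hne
  have : 0 < X 0 ^ d * |u X| ^ p := mul_pos (pow_pos hX0 d) (Real.rpow_pos_of_pos (abs_pos.2 hne) p)
  linarith

end Pool.Agent.Results.MP_fc0ae9_an.Injective
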