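import Pool.Agent.Lib.MP_fc0ae9_an.StR

/- The boundary value map `T` on `H^p(ℝ^d)` is not onto slightly below the exponent `(d-1)/d`. -/

namespace Pool.Agent.Results.MP_fc0ae9_an.NotOnto

open MeasureTheory Filter Metric
open scoped Topology
open Pool.Agent.Results.MP_fc0ae9_an.PositiveThreshold Pool.Agent.Lib.MP_fc0ae9_an.St

/-- `T` maps `H^p(ℝ^d)` onto `(L^p(ℝ^d))^{d+1}`. -/
def Onto (d : ℕ) (α p : ℝ) : Prop :=
  ∀ (f₀ : EuclideanSpace ℝ (Fin d) → ℝ) (f : Fin d → EuclideanSpace ℝ (Fin d) → ℝ),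
    MemLp f₀ (ENNReal.ofReal p) → (∀ j, MemLp (f j) (ENNReal.ofReal p)) →
    ∃ (u : EuclideanSpace ℝ (Fin (d + 1)) → ℝ) (v : Fin d → EuclideanSpace ℝ (Fin (d + 1)) → ℝ),
      MemHp α p u ∧ AreRieszTransforms α p u v ∧
      (∀ᵐ x, Tendsto (fun t => u (pt t x)) (𝓝[>] 0) (𝓝 (f₀ x))) ∧
      ∀ j, ∀ᵐ x, Tendsto (fun t => v j (pt t x)) (𝓝[>] 0) (𝓝 (f j x))

theorem result (d : ℕ) (hd : 2 ≤ d) : ∃ p₁ : ℝ, 0 < p₁ ∧ p₁ < ((d : ℝ) - 1) / d ∧
    ∀ α : ℝ, 0 < α → ∀ p : ℝ, p₁ ≤ p → p < 1 → ¬ Onto d α p := by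
  classical
  obtain ⟨p₁, h0, h1, h⟩ := apriori_sys hd
  refine ⟨p₁, h0, h1, fun α hα p hp hp1 honto => ?_⟩
  obtain ⟨C, hC, h⟩ := h p hp hp1.le
  have hp0 : 0 < p := h0.trans_le hp
  have hex : ∀ E : Set (Ed d), ∃ F : Fin (d + 1) → EE d → ℝ, MeasurableSet E → E ⊆ ball 0 1 →
      Sys α p F (E.indicator fun _ => 1) := by
    intro E
    by_cases hE : MeasurableSet E ∧ E ⊆ ball 0 1
    · obtain ⟨u, v, hu, hv, h1, h2⟩ := honto (E.indicator fun _ => 1) (fun _ _ => 0)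
        (memLp_indicator_const _ hE.1 1
          (Or.inr ((measure_mono hE.2).trans_lt measure_ball_lt_top).ne))
        (fun _ => MemLp.zero')
      exact ⟨_, fun _ _ => sys_of_riesz hu hv h1 h2⟩
    · exact ⟨0, fun h1 h2 => (hE ⟨h1, h2⟩).elim⟩
  choose F hF using hex
  have hzero : ∀ X ∈ halfSpace d, F (ball 0 1) 0 X = 0 := by
    intro X hX
    have hX0 : 0 < X 0 ^ d := pow_pos hX d
    refine abs_eq_zero.1 (additive_zero (φ := fun E => |F E 0 X|) (C := C / X 0 ^ d) (by omega)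
      hp0 hp1 (fun _ => abs_nonneg _) (fun E hE hE1 => ?_) fun E E' hE hE' hEE hE1 => ?_)
    · have h2 := h α hα _ _ (hF E hE hE1) X hX
      have h3 : (fun x => |E.indicator (fun _ => (1 : ℝ)) x| ^ p) = E.indicator fun _ => 1 := by
        funext x
        by_cases hx : x ∈ E <;> simp [hx, hp0.ne']
      rw [h3, integral_indicator_const _ hE, smul_eq_mul, mul_one] at h2
      rw [div_mul_eq_mul_div, le_div_iff₀ hX0, mul_comm]
      exact h2
    · have h2 := h α hα _ _ ((hF E' hE' hE1).sub_sub hp0 hp1.le (hF E hE (hEE.trans hE1))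
        (hF (E' \ E) (hE'.diff hE) (Set.sdiff_subset.trans hE1))) X hX
      have h3 : (fun x => |E'.indicator (fun _ => (1 : ℝ)) x - E.indicator (fun _ => 1) x -
          (E' \ E).indicator (fun _ => 1) x| ^ p) = fun _ => 0 := by
        funext x
        by_cases hx : x ∈ E
        · simp [hx, hEE hx, hp0.ne']
        · by_cases hx' : x ∈ E' <;> simp [hx, hx', hp0.ne']
      rw [h3, integral_zero, mul_zero] at h2
      have h4 : F E' 0 X - F E 0 X - F (E' \ E) 0 X = 0 := by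
        by_contra hne
        have := mul_pos hX0 (Real.rpow_pos_of_pos (abs_pos.2 hne) p)
        linarith
      calc |F E' 0 X| = |F E 0 X + F (E' \ E) 0 X| := by congr 1; linarith
        _ ≤ _ := abs_add_le _ _
  have hae : ∀ᵐ x : Ed d, x ∉ ball (0 : Ed d) 1 := by
    filter_upwards [(hF _ measurableSet_ball subset_rfl).lim0] with x hx hx1
    rw [Set.indicator_of_mem hx1] at hx
    have h2 : Tendsto (fun t => F (ball 0 1) 0 (pt t x)) (𝓝[>] 0) (𝓝 0) :=
      tendsto_const_nhds.congr' (eventually_nhdsWithin_of_forall fun t ht =>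
        (hzero _ (pt_mem ht x)).symm)
    exact one_ne_zero (tendsto_nhds_unique hx h2)
  exact (measure_ball_pos volume (0 : Ed d) one_pos).ne' (measure_eq_zero_iff_ae_notMem.2 hae)

end Pool.Agent.Results.MP_fc0ae9_an.NotOnto
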